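import Pool.Agent.Y745.LD.Asm2
import Pool.Agent.Y745.EW.Asm
import Pool.Agent.Y745.EW.Level
import Pool.Agent.Y288.EW.SEPC
import Pool.Agent.Y745.LD.VB5
import Pool.Agent.Y745.EW.Blk
import Pool.Agent.Y674.LD.Z3
import Pool.Agent.Y448.LD.LOW
import Pool.Agent.Y363.LD.ZL2
import Pool.Agent.Y363.LD.PW
import Pool.Agent.Y179.LD.Z1
import Pool.Agent.Y210.LD.EFU
import Pool.Agent.Y290.LD.DFU
import Pool.Agent.Y447.LD.VMR
import Pool.Agent.Y665.LD.VMS
import Pool.Agent.Y732.LD.VSM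
import Pool.Agent.Y745.LD.CNT2
import Pool.Agent.Y786.LD.KER2
import Pool.Agent.Y811.LD.VDQ
import Pool.Agent.Y871.LD.COST
import Pool.Agent.Y931.LD.VM1
import Pool.Agent.Y949.LD.G2M
import Pool.Agent.Y954.LD.DERV
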